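import Pool.Agent.R882.CovMain
import Pool.Agent.R882.CovGT
import Pool.Agent.Y184.NT.Top

/-!
# Negative Kodaira dimension and uniruledness of the images of covers of projective space

Let `V` be a smooth hypersurface of dimension `n ≥ 1` with the equation
`y ^ N + a_{N - 1}(x) y ^ (N - 1) + ⋯ + a_0(x) = 0`, where `a_i` is a form of degree `(N - i) k` in
the coordinates `x_0, …, x_n` of projective `n`-space: a covering of degree `N` of projective
`n`-space, embedded in the line bundle `O(k)`, that is, a smooth hypersurface of degree `N k` in the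
weighted projective space `P(1, …, 1, k)`. For instance, all cyclic coverings `y ^ N = f(x)` of
projective space which are branched over a smooth hypersurface are of this kind, in particular all
double planes, double solids, and so on. The canonical bundle of `V` is `O(m)`, where
`m = (N - 1) k - n - 1`.

Let `W` be any smooth projective variety with a dominant rational map `V ⇢ W` of degree `r`; nothing
is assumed about the map (it need not be a quotient by a group, and its ramification is arbitrary)
or about `W`. The theorem (for `N ≤ 3`, or `n ≤ k ⌊(N - 1) / 2⌋`): if `r ≤ m + 1` then these are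
equivalent: `p_g(W) = 0`; `κ(W) = -∞`; `K_W` is not pseudo-effective; `W` is uniruled; `W` is
unirational; `V ⇢ W` factors through the covering `V → ℙⁿ`. If `2 r ≤ m + 1` then they are also
equivalent to: `W` is not of general type. For instance, if `V` is the double covering of projective
space branched over a smooth hypersurface of degree `2 k`, then the six conditions are equivalent for
all `W` dominated by `V` with degree at most `k - n`.

Proof: let `L` and `E` be the function fields of `W` and of projective space, and let `F` be the
field generated by `L` and `E` in the function field `K` of `V`. If `L` is not contained in `E` then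
`d = [K : F]` is at most `N / 2`. The functions `y ^ j`, `j < d`, are a basis of `K` over `F`, hence
there is a number `j < d` such that the trace from `K` to `F` of the residue form `y ^ j Res` is not
zero. The forms `A(x) y ^ j Res` are regular on `V` for all forms `A` of degree
`(N - d) k - n - 1`. If `p_g(W) = 0` then their traces to `L` vanish, so that the conjugates over `L`
of the generic point of projective space do not impose independent conditions on the forms of this
degree, whereas there are at most `(N - d) k - n` conjugates.

The function-field language of the starting repository is used: `K` is the function field of `V`,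
and `L`, a subfield of `K`, the function field of `W`. A canonical form (`IsPluri 1`) on a variety
of dimension `n` is a function of `n` rational vector fields; it is regular at the prime divisor `P`
(`Place`, `Divisorial`, `RegAt`) if its value on vector fields which are regular at `P` is regular
at `P`. `KodGe ℂ L n (fun _ => False) 0` says that `κ(W) ≥ 0`, `Psef ℂ L n (fun _ => False)` that
`K_W` is pseudo-effective, `GeneralType ℂ L n` that `W` is of general type (`Pool/Agent/W602/GT`),
`IsUniruled ℂ L n` that `W` is uniruled (`Pool/Agent/W619/PQ/Defs.lean`).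
-/

set_option autoImplicit false
set_option linter.overlappingInstances false

open FF MvPolynomial Pool.Agent.W602.GT
open Pool.Agent.W619.PQ (IsUniruled)

namespace Pool.Agent.Results.MP_e06174_ag.ImagesOfCovers

/-- The polynomial `y ^ N + a_{N - 1}(x) y ^ (N - 1) + ⋯ + a_0(x)` in the variables `y` (the first
variable, with the index `0`) and `x_0, …, x_n`. -/
noncomputable def equation {n N : ℕ} (a : Fin N → MvPolynomial (Fin (n + 1)) ℂ) :
    MvPolynomial (Fin (n + 2)) ℂ :=
  X 0 ^ N + ∑ i, rename Fin.succ (a i) * X 0 ^ (i : ℕ)

/-- The equation defines a smooth hypersurface of degree `N k` in the weighted projective space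
`P(k, 1, …, 1)`: the `a_i` are forms of degree `(N - i) k`, and the partial derivatives have no common
zero but `0`. -/
structure IsSmoothCover {n N : ℕ} (k : ℕ) (a : Fin N → MvPolynomial (Fin (n + 1)) ℂ) : Prop where
  forms : ∀ i : Fin N, (a i).IsHomogeneous ((N - i) * k)
  smooth : ∀ z : Fin (n + 2) → ℂ, z ≠ 0 → ∃ l, eval z (pderiv l (equation a)) ≠ 0

/-- `(x, y)` is the generic point of the hypersurface, whose function field is `K`; the coordinates
are normalised by `x 0 = 1`. -/
structure IsGenericPoint {n N : ℕ} (a : Fin N → MvPolynomial (Fin (n + 1)) ℂ) {K : Type} [Field K]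
    [Algebra ℂ K] (x : Fin (n + 1) → K) (y : K) : Prop where
  one : x 0 = 1
  zero : y ^ N + ∑ i, aeval x (a i) * y ^ (i : ℕ) = 0
  gen : IntermediateField.adjoin ℂ (insert y (Set.range x)) = ⊤
  dim : Algebra.trdeg ℂ K = n

section

variable (L : Type) [Field L] [Algebra ℂ L] (n : ℕ)

/-- The geometric genus is zero: the only canonical form which is regular at all prime divisors is
`0`. -/
def GenusZero : Prop :=
  ∀ ω : (Fin n → Derivation ℂ L L) → L, IsPluri 1 ω →
    (∀ P : Place ℂ L, Divisorial n P → RegAt P ω) → ∀ D, ω D = 0

/-- The varieties of dimension `n` with function field `L` are unirational: `L` embeds into the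
field of rational functions in `n` variables. -/
def IsUnirational : Prop :=
  Nonempty (L →ₐ[ℂ] FractionRing (MvPolynomial (Fin n) ℂ))

/-- The map `V ⇢ W` factors through the projection `V → ℙⁿ`: all elements of `L` are rational
functions of `x`. -/
def FactorsThrough {K : Type} [Field K] [Algebra ℂ K] [Algebra L K] (x : Fin (n + 1) → K) : Prop :=
  ∀ f : L, algebraMap L K f ∈ IntermediateField.adjoin ℂ (Set.range x)

end

/-- unirational varieties are uniruled -/
theorem uniruled_of_unirational {L : Type} [Field L] [Algebra ℂ L] {n : ℕ} (hn : 1 ≤ n)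
    (h : IsUnirational L n) : IsUniruled ℂ L n := by
  obtain ⟨φ⟩ := h
  let R := FractionRing (MvPolynomial (Fin n) ℂ)
  have h1 : AlgebraicIndependent ℂ (fun i : Fin n =>
      (algebraMap (MvPolynomial (Fin n) ℂ) R) (X i)) := by
    have h2 := (MvPolynomial.algebraicIndependent_X (Fin n) ℂ).map' (f := IsScalarTower.toAlgHom ℂ
      (MvPolynomial (Fin n) ℂ) R) (IsFractionRing.injective (MvPolynomial (Fin n) ℂ) R)
    exact h2
  have h3 : IntermediateField.adjoin ℂ (Set.range (fun i : Fin n =>
      (algebraMap (MvPolynomial (Fin n) ℂ) R) (X i))) = ⊤ := by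
    rw [eq_top_iff]
    intro z _
    have h4 : ∀ p : MvPolynomial (Fin n) ℂ, algebraMap (MvPolynomial (Fin n) ℂ) R p ∈
        IntermediateField.adjoin ℂ (Set.range (fun i : Fin n =>
          (algebraMap (MvPolynomial (Fin n) ℂ) R) (X i))) := by
      intro p
      induction p using MvPolynomial.induction_on with
      | C c =>
        have h5 : algebraMap (MvPolynomial (Fin n) ℂ) R (C c) = algebraMap ℂ R c := by
          rw [IsScalarTower.algebraMap_apply ℂ (MvPolynomial (Fin n) ℂ) R]
          rfl
        rw [h5]
        exact IntermediateField.algebraMap_mem _ c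
      | add p q hp hq => rw [map_add]; exact add_mem hp hq
      | mul_X p i hp =>
        rw [map_mul]
        exact mul_mem hp (IntermediateField.subset_adjoin ℂ _ ⟨i, rfl⟩)
    obtain ⟨p, q, hq, rfl⟩ := IsFractionRing.div_surjective (A := MvPolynomial (Fin n) ℂ) z
    exact div_mem (h4 p) (h4 q)
  obtain ⟨M, i1, i2, hM, htr, ⟨ψ⟩⟩ := Pool.Agent.Y184.NT.uniruled_of_rational hn h1 h3
  exact ⟨M, i1, i2, hM, htr, ⟨ψ.comp φ⟩⟩

theorem adjoin_tail {K : Type} [Field K] [Algebra ℂ K] {n : ℕ} {x : Fin (n + 1) → K}
    (hx0 : x 0 = 1) : IntermediateField.adjoin ℂ (Set.range x) =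
      IntermediateField.adjoin ℂ (Set.range fun i : Fin n => x i.succ) := by
  apply le_antisymm
  · rw [IntermediateField.adjoin_le_iff]
    rintro _ ⟨j, rfl⟩
    refine Fin.cases ?_ (fun i => ?_) j
    · change x 0 ∈ _
      rw [hx0]
      exact one_mem _
    · exact IntermediateField.subset_adjoin ℂ _ ⟨i, rfl⟩
  · apply IntermediateField.adjoin.mono
    rintro _ ⟨i, rfl⟩
    exact ⟨i.succ, rfl⟩

/-- fields of rational functions of `x` are unirational -/
theorem unirational_of_factors {L K : Type} [Field L] [Field K] [Algebra ℂ L] [Algebra ℂ K]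
    [Algebra L K] [IsScalarTower ℂ L K] {n : ℕ} {x : Fin (n + 1) → K} (hx0 : x 0 = 1)
    (hind : AlgebraicIndependent ℂ (fun i : Fin n => x i.succ)) (h : FactorsThrough L n x) :
    IsUnirational L n := by
  have hE := adjoin_tail hx0
  let e := hind.aevalEquivField
  let φ : L →ₐ[ℂ] IntermediateField.adjoin ℂ (Set.range fun i : Fin n => x i.succ) :=
    { toFun := fun f => ⟨algebraMap L K f, by
        rw [← hE]
        exact h f⟩
      map_one' := Subtype.ext (map_one _)
      map_mul' := fun f g => Subtype.ext (map_mul _ _ _)
      map_zero' := Subtype.ext (map_zero _)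
      map_add' := fun f g => Subtype.ext (map_add _ _ _)
      commutes' := fun c => Subtype.ext (IsScalarTower.algebraMap_apply ℂ L K c).symm }
  exact ⟨(e.symm : _ →ₐ[ℂ] FractionRing (MvPolynomial (Fin n) ℂ)).comp φ⟩

/-- **Images of covers of projective space.** Let `V` be a smooth hypersurface
`y ^ N + a_{N - 1}(x) y ^ (N - 1) + ⋯ + a_0(x) = 0` of degree `N k` and dimension `n ≥ 1` in the weighted
projective space `P(1, …, 1, k)`, so that `K_V = O(m)` where `m = (N - 1) k - n - 1`, and suppose that
`N ≤ 3` or `n ≤ k ⌊(N - 1) / 2⌋`. Let `W` be a smooth projective variety with function field `L` and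
`V ⇢ W` a dominant rational map of degree `r`. If `r ≤ m + 1` then `p_g(W) = 0` if and only if
`κ(W) = -∞`, if and only if `K_W` is not pseudo-effective, if and only if `W` is uniruled, if and only
if `W` is unirational, if and only if `V ⇢ W` factors through the covering `V → ℙⁿ`. If
`2 r ≤ m + 1` then `W` is not of general type if and only if `V ⇢ W` factors through `V → ℙⁿ`. -/
theorem result {n N k : ℕ} (hn : 1 ≤ n) (hk : N ≤ 3 ∨ n ≤ k * ((N - 1) / 2))
    {a : Fin N → MvPolynomial (Fin (n + 1)) ℂ} (hV : IsSmoothCover k a)
    {K : Type} [Field K] [Algebra ℂ K] {x : Fin (n + 1) → K} {y : K}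
    (hxy : IsGenericPoint a x y)
    (L : Type) [Field L] [Algebra ℂ L] [Algebra L K] [IsScalarTower ℂ L K]
    [FiniteDimensional L K] :
    (Module.finrank L K + n ≤ (N - 1) * k →
      [GenusZero L n, ¬ KodGe ℂ L n (fun _ => False) 0, ¬ Psef ℂ L n (fun _ => False),
        IsUniruled ℂ L n, IsUnirational L n, FactorsThrough L n x].TFAE) ∧
    (2 * Module.finrank L K + n ≤ (N - 1) * k →
      (¬ GeneralType ℂ L n ↔ FactorsThrough L n x)) := by
  classical
  have hrange : Set.range (Fin.cons y x : Fin (n + 2) → K) = insert y (Set.range x) :=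
    Fin.range_cons y x
  have hessK : Algebra.EssFiniteType ℂ K := by
    rw [← IntermediateField.fg_top_iff]
    exact ⟨Finset.univ.image (Fin.cons y x : Fin (n + 2) → K), by
      rw [Finset.coe_image, Finset.coe_univ, Set.image_univ, hrange, hxy.gen]⟩
  have hessL : Algebra.EssFiniteType ℂ L := Pool.Agent.TH466.QG.ess_below (K := K)
  have hL : Algebra.trdeg ℂ L = n := Pool.Agent.Y184.NT.trdeg_below (K := K) hxy.dim
  by_cases hN0 : N = 0
  · -- there are no hypersurfaces of degree zero
    exfalso
    subst hN0
    have h1 := hxy.zero
    simp at h1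
  have hrpos : 0 < Module.finrank L K := Module.finrank_pos
  -- the base
  have hxE : ∀ j, x j ∈ IntermediateField.adjoin ℂ (Set.range x) := fun j =>
    IntermediateField.subset_adjoin ℂ _ ⟨j, rfl⟩
  obtain ⟨hfin, hdegE⟩ := Pool.Agent.R882.WR.fin_x hxE hN0 hxy.zero hxy.gen
  have halg : ∀ τ : K, IsAlgebraic (IntermediateField.adjoin ℂ (Set.range x)) τ := fun τ =>
    (Algebra.IsIntegral.isIntegral τ).isAlgebraic
  -- the residue form
  obtain ⟨c, hc⟩ := Pool.Agent.R882.WR.exists_c (F := Pool.Agent.R882.WR.eqn a) hV.smooth
    (Z := (Fin.cons y x : Fin (n + 2) → K)) (j0 := Fin.succ 0) (by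
      rw [Fin.cons_succ]
      exact hxy.one)
  obtain ⟨ω, hωdef⟩ : ∃ ω : ℕ → (Fin n → Derivation ℂ K K) → K, ω = fun j D => y ^ j *
    (Pool.Agent.R882.WR.wrows (Pool.Agent.R882.WR.wt k) c
      (Fin.cons y x : Fin (n + 2) → K) D).det := ⟨_, rfl⟩
  have hω : ∀ j, IsPluri 1 (ω j) := by
    intro j
    rw [hωdef]
    exact Pool.Agent.R882.WR.wrows_pluri _ _ _ _
  obtain ⟨z, E, hz, hE⟩ := Pool.Agent.Y172.exists_crd (k := ℂ) (K := L) hL
  choose E' hE' using fun i => Pool.Agent.Y172.exists_lift (k := ℂ) (K := L) (L := K) hL (E i)
  have hEind : LinearIndependent K E' := Pool.Agent.Y184.NT.lift_ind hE hE'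
  have hcL : CharZero L := charZero_of_injective_algebraMap (algebraMap ℂ L).injective
  -- the trace which is not zero
  have hstep : ¬ FactorsThrough L n x →
      2 * Module.finrank (IntermediateField.adjoin L (Set.range x)) K ≤ N ∧
      ∃ j < Module.finrank (IntermediateField.adjoin L (Set.range x)) K,
        Algebra.trace (IntermediateField.adjoin L (Set.range x)) K (ω j E') ≠ 0 := by
    intro hnf
    refine ⟨?_, ?_⟩
    · rcases Pool.Agent.R882.WR.deg_cases (L := L) x with h | h
      · exact absurd h hnf
      · omega
    · by_contra hcon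
      push Not at hcon
      have hcF : CharZero (IntermediateField.adjoin L (Set.range x)) :=
        charZero_of_injective_algebraMap (algebraMap L _).injective
      have h1 := Pool.Agent.R882.WR.powers_zero (Pool.Agent.R882.WR.gen_yL (L := L) hxy.gen)
        (h := (Pool.Agent.R882.WR.wrows (Pool.Agent.R882.WR.wt k) c
          (Fin.cons y x : Fin (n + 2) → K) E').det) (by
            intro j hj
            have h2 := hcon j hj
            rw [hωdef] at h2
            exact h2)
      exact Pool.Agent.R882.WR.wres_ne (Pool.Agent.R882.WR.eqn_wh hV.forms)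
        (by
          rw [Pool.Agent.R882.WR.aeval_eqn]
          exact hxy.zero) hc (j0 := Fin.succ 0) (by
            rw [Fin.cons_succ]
            exact hxy.one) (by
            change (1 : ℕ) ≠ 0
            exact one_ne_zero) (by rw [hrange, hxy.gen]) hEind h1
  -- the degrees
  have hmul : Module.finrank L (IntermediateField.adjoin L (Set.range x)) *
      Module.finrank (IntermediateField.adjoin L (Set.range x)) K = Module.finrank L K :=
    Module.finrank_mul_finrank L _ K
  have hnum : ∀ s : ℕ, 1 ≤ s → s * Module.finrank L K + n ≤ (N - 1) * k →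
      2 * Module.finrank (IntermediateField.adjoin L (Set.range x)) K ≤ N →
      s * Module.finrank L (IntermediateField.adjoin L (Set.range x)) + n ≤
        (N - Module.finrank (IntermediateField.adjoin L (Set.range x)) K) * k := by
    intro s hs h1 h2
    obtain ⟨r, hr⟩ : ∃ r, r = Module.finrank L (IntermediateField.adjoin L (Set.range x)) :=
      ⟨_, rfl⟩
    obtain ⟨d, hd⟩ : ∃ d, d = Module.finrank (IntermediateField.adjoin L (Set.range x)) K :=
      ⟨_, rfl⟩
    rw [← hr, ← hd] at hmul ⊢
    rw [← hd] at h2
    rw [← hmul] at h1 hrpos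
    have hd0 : 1 ≤ d := by
      rcases Nat.eq_zero_or_pos d with h | h
      · rw [h] at hrpos
        simp at hrpos
      · exact h
    rcases Nat.lt_or_ge 1 d with hd1 | hd1
    · -- then `N ≥ 4`
      have hk' : n ≤ k * ((N - 1) / 2) := by
        rcases hk with h | h
        · omega
        · exact h
      obtain ⟨q, hq⟩ : ∃ q, N = d + 1 + q := ⟨N - d - 1, by omega⟩
      obtain ⟨e, he⟩ : ∃ e, d = e + 2 := ⟨d - 2, by omega⟩
      have hk2 : n ≤ k * q := le_trans hk' (Nat.mul_le_mul_left _ (by omega))
      have h3 : N - 1 = d + q := by omega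
      have h4 : N - d = q + 1 := by omega
      rw [h3] at h1
      rw [h4]
      -- `d (s r + n) ≤ (d + q) k + (d - 1) n ≤ (d + q) k + (d - 1) k q = d (q + 1) k`
      have h5 : d * (s * r + n) ≤ d * ((q + 1) * k) := by
        have h6 : (e + 1) * n ≤ (e + 1) * (k * q) := Nat.mul_le_mul_left _ hk2
        rw [he] at h1 ⊢
        nlinarith
      exact Nat.le_of_mul_le_mul_left h5 (by omega)
    · have hd2 : d = 1 := by omega
      rw [hd2, mul_one] at h1
      rw [hd2]
      exact h1
  -- the main step
  have main : Module.finrank L K + n ≤ (N - 1) * k → GenusZero L n → FactorsThrough L n x := by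
    intro hr hg
    by_contra hnf
    obtain ⟨h1, j, hj, hne⟩ := hstep hnf
    have h2 := hnum 1 le_rfl (by rwa [one_mul]) h1
    rw [one_mul] at h2
    obtain ⟨m, hm⟩ : ∃ m, m + n + 1 =
        (N - Module.finrank (IntermediateField.adjoin L (Set.range x)) K) * k := by
      have h3 : 0 < Module.finrank L (IntermediateField.adjoin L (Set.range x)) :=
        Module.finrank_pos
      exact ⟨(N - Module.finrank (IntermediateField.adjoin L (Set.range x)) K) * k - n - 1,
        by omega⟩
    refine hne (Pool.Agent.R882.WR.trace_zero hL hg (m := m) hxy.one (hω j) (fun f P _ => ?_)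
      hE' (by omega))
    rw [hωdef]
    refine Pool.Agent.R882.WR.reg_forms hV.forms hV.smooth hxy.one hxy.zero hc ?_ f P
    have h4 : N * k = (N - Module.finrank (IntermediateField.adjoin L (Set.range x)) K) * k +
        Module.finrank (IntermediateField.adjoin L (Set.range x)) K * k := by
      rw [← add_mul]
      congr 1
      omega
    have h5 : j * k + k ≤
        Module.finrank (IntermediateField.adjoin L (Set.range x)) K * k := by
      rw [← Nat.succ_mul]
      exact Nat.mul_le_mul_right _ hj
    omega
  have hind : AlgebraicIndependent ℂ (fun i : Fin n => x i.succ) := by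
    rw [adjoin_tail hxy.one] at halg
    have h1 := Pool.Agent.W619.PQ.alg_adjoin halg
    exact (Algebra.IsAlgebraic.isTranscendenceBasis_of_lift_le_trdeg_of_finite ℂ
      (fun i : Fin n => x i.succ) (by rw [hxy.dim]; simp)).1
  refine ⟨fun hr => ?_, fun hr => ?_⟩
  · tfae_have 1 → 6 := main hr
    tfae_have 6 → 5 := unirational_of_factors hxy.one hind
    tfae_have 5 → 4 := uniruled_of_unirational hn
    tfae_have 4 → 3 := fun h h' =>
      (Pool.Agent.W619.Y.uniruled_neg n hL h).1 ((Pool.Agent.TH466.QG.psef_iff n).1 h')
    tfae_have 3 → 2 := fun h h' => h (psef_of_kodGe h')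
    tfae_have 2 → 1 := by
      intro h ω hω hreg D
      by_contra hne
      refine h ⟨1, one_pos, fun _ => ω, fun _ => ⟨hω, fun P hP D' hD' => ?_,
        fun P hP _ => hreg P hP⟩, D, hne, ?_⟩
      · exact hreg P hP D' fun i => Pool.Agent.TH466.QG.derReg_of_log (hD' i)
      · exact algebraicIndependent_empty_type
    tfae_finish
  · constructor
    · intro hgt
      by_contra hnf
      apply hgt
      obtain ⟨h1, j, hj, hne⟩ := hstep hnf
      have h2 := hnum 2 (by omega) hr h1
      obtain ⟨m, hm⟩ : ∃ m, m + n + 1 =
          (N - Module.finrank (IntermediateField.adjoin L (Set.range x)) K) * k := by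
        have h3 : 0 < Module.finrank L (IntermediateField.adjoin L (Set.range x)) :=
          Module.finrank_pos
        exact ⟨(N - Module.finrank (IntermediateField.adjoin L (Set.range x)) K) * k - n - 1,
          by omega⟩
      refine Pool.Agent.R882.WR.gt_of hn hL (m := m) hxy.one (hω j) (fun f P _ => ?_) halg hz hE
        hE' (by omega) hne
      rw [hωdef]
      refine Pool.Agent.R882.WR.reg_forms hV.forms hV.smooth hxy.one hxy.zero hc ?_ f P
      have h4 : N * k = (N - Module.finrank (IntermediateField.adjoin L (Set.range x)) K) * k +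
          Module.finrank (IntermediateField.adjoin L (Set.range x)) K * k := by
        rw [← add_mul]
        congr 1
        omega
      have h5 : j * k + k ≤
          Module.finrank (IntermediateField.adjoin L (Set.range x)) K * k := by
        rw [← Nat.succ_mul]
        exact Nat.mul_le_mul_right _ hj
      omega
    · intro hf hgt
      have h1 := uniruled_of_unirational hn (unirational_of_factors hxy.one hind hf)
      exact (Pool.Agent.W619.Y.uniruled_neg n hL h1).1 ((Pool.Agent.TH466.QG.psef_iff n).1
        (psef_of_kodGe (Pool.Agent.R882.WR.kod_of_gt hgt)))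

end Pool.Agent.Results.MP_e06174_ag.ImagesOfCovers
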