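import Pool.Agent.R882.CUnir

/-!
# Negative Kodaira dimension and uniruledness of the images of smooth complete intersections in
products of projective lines

Let `V` be a smooth complete intersection of hypersurfaces `F_k = 0` of multidegrees `(d_{k,i})`,
`k ∈ κ`, in the product of the projective lines with the coordinates `x_i`, `i ∈ ι`, of dimension
`n = |ι| - |κ| ≥ 1`, where `Σ_k d_{k,i} = m_i + 2` with `m_i ≥ μ ≥ 0`, so that the canonical bundle
of `V` is `O(m_i, i ∈ ι)`.

Let `W` be any smooth projective variety with a dominant rational map `V ⇢ W` of degree `r`; nothing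
is assumed about the map (it need not be a quotient by a group, and its ramification is arbitrary)
or about `W`. The theorem: if `r ≤ μ + 1` then `p_g(W) > 0`. If `r ≤ 2 μ + 1` then these are
equivalent: `p_g(W) = 0`; `κ(W) = -∞`; `K_W` is not pseudo-effective; `W` is uniruled. If they hold
then there are `i` and `k` such that the coordinate `x_i` occurs only in the equation `F_k`, the
degree `r` is `d_{k,i}`, and `V ⇢ W` is the projection of `V` which forgets the coordinate `x_i`.

Proof. The residue forms on `V`, with coefficients of degree at most `m_i` in `x_i`, are regular at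
all prime divisors: in each affine chart the determinant of a matrix with the rows
`D_j(x)`, `j = 1, …, n`, and `|κ|` other rows which are dual to the gradients of the equations does
not depend on the choice of these rows, and one can choose them regular, because some maximal minor
of the Jacobian matrix is a unit. The traces of these forms are canonical forms of `W`. If
`p_g(W) = 0` then they vanish; it follows that the conjugates of `x` over the function field `L` of
`W` lie on a line on which all coordinates but one, `x_i`, are constant, and that `r ≥ m_i + 2`. The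
degree of `V` over its image under the projection which forgets `x_i` is at most `d_{k,i} ≤ m_i + 2`
for some `k`. Hence `L` is generated by the other coordinates, and `x_i` occurs only in `F_k`. So
`W` is birational to the smooth complete intersection of the other hypersurfaces. Its geometric genus
is zero, so there is a coordinate `x_l` with `Σ d_{j,l} ≤ 1`, where `j` runs over the other
equations. If `x_l` is transcendental over the field generated by the other coordinates then `W` is
ruled; otherwise `x_l` occurs in only one equation and lies in this field, and one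
proceeds by induction.

The function-field language of the starting repository is used: `K` is the function field of `V`,
and `L`, a subfield of `K`, the function field of `W`. A canonical form (`IsPluri 1`) on a variety
of dimension `n` is a function of `n` rational vector fields; it is regular at the prime divisor `P`
(`Place`, `Divisorial`, `RegAt`) if its value on vector fields which are regular at `P` is regular
at `P`. `KodGe ℂ L n (fun _ => False) 0` says that `κ(W) ≥ 0`, `Psef ℂ L n (fun _ => False)` that
`K_W` is pseudo-effective (`Pool/Agent/W602/GT`), `IsUniruled ℂ L n` that `W` is uniruled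
(`Pool/Agent/W619/PQ/Defs.lean`). `chart d S F` (`Pool/Agent/R882/CRes.lean`) is the equation of the
closure of `F = 0`, as a divisor of multidegree `d`, in the affine chart of the product of projective
lines with the coordinates `z_i = 1 / x_i`, `i ∈ S`, and `z_i = x_i`, `i ∉ S`.
-/

set_option autoImplicit false
set_option linter.overlappingInstances false
set_option linter.unusedDecidableInType false
set_option linter.unusedFintypeInType false

open FF MvPolynomial Pool.Agent.W602.GT
open Pool.Agent.W619.PQ (IsUniruled)
open Pool.Agent.R882.CI (chart)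

namespace Pool.Agent.Results.MP_e06174_ag.CompleteIntersectionsLines

section

variable {κ ι : Type} [Fintype ι] [DecidableEq ι]

/-- The closures of the hypersurfaces `F k = 0`, as divisors of multidegrees `d k`, in the product
of projective lines meet transversally: in each affine chart, the gradients of the equations are
linearly independent at all common zeros. -/
def IsSmooth (d : κ → ι → ℕ) (F : κ → MvPolynomial ι ℂ) : Prop :=
  ∀ (S : Finset ι) (z : ι → ℂ), (∀ k, eval z (chart (d k) S (F k)) = 0) →
    LinearIndependent ℂ (fun (k : κ) (i : ι) => eval z (pderiv i (chart (d k) S (F k))))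

variable {K : Type} [Field K] [Algebra ℂ K]

/-- `x` is the generic point of an irreducible component, of dimension `n`, of the complete
intersection `F k = 0`, `k ∈ κ`, and `K` is its function field. -/
structure IsGenericPoint (n : ℕ) (F : κ → MvPolynomial ι ℂ) (x : ι → K) : Prop where
  zero : ∀ k, aeval x (F k) = 0
  gen : IntermediateField.adjoin ℂ (Set.range x) = ⊤
  dim : Algebra.trdeg ℂ K = n

end

/-- The geometric genus is zero: the only canonical form which is regular at all prime divisors is
`0`. -/
def GenusZero (L : Type) [Field L] [Algebra ℂ L] (n : ℕ) : Prop :=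
  ∀ ω : (Fin n → Derivation ℂ L L) → L, IsPluri 1 ω →
    (∀ P : Place ℂ L, Divisorial n P → RegAt P ω) → ∀ D, ω D = 0

/-- The map `V ⇢ W` is (birationally) the projection of `V` which forgets the coordinate `x_i`: the
subfield `L` of `K` is generated by the other coordinates. -/
def IsProjection (L : Type) [Field L] {K : Type} [Field K] [Algebra ℂ K] [Algebra L K] {ι : Type}
    (x : ι → K) (i : ι) : Prop :=
  ∀ z : K, z ∈ Set.range (algebraMap L K) ↔ z ∈ IntermediateField.adjoin ℂ (x '' {i}ᶜ)

section

variable {L K : Type} [Field L] [Field K] [Algebra ℂ L] [Algebra ℂ K] [Algebra L K]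
  [IsScalarTower ℂ L K] [FiniteDimensional L K]

omit [FiniteDimensional L K] in
/-- the degree over a subfield -/
theorem finrank_range :
    Module.finrank (IsScalarTower.toAlgHom ℂ L K).fieldRange K = Module.finrank L K := by
  let e : L ≃+* (IsScalarTower.toAlgHom ℂ L K).fieldRange :=
    (AlgEquiv.ofInjectiveField (IsScalarTower.toAlgHom ℂ L K)).toRingEquiv
  exact (Algebra.finrank_eq_of_equiv_equiv e (RingEquiv.refl K) (by
    ext z
    rfl)).symm

end

/-- **Images of smooth complete intersections in products of projective lines.** Let `V` be a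
component of a smooth complete intersection of dimension `n ≥ 1` of hypersurfaces of multidegrees
`d k`, `k ∈ κ`, in the product of the projective lines with the coordinates `x i`, `i ∈ ι`, let
`Σ_k d k i = m i + 2`, `μ ≤ m i` for all `i`, and let `V ⇢ W` be a dominant rational map of degree
`r` to a smooth projective variety `W` with function field `L`. If `r ≤ μ + 1` then `p_g(W) > 0`. If
`r ≤ 2 μ + 1` then `p_g(W) = 0` if and only if `κ(W) = -∞`, if and only if `K_W` is not
pseudo-effective, if and only if `W` is uniruled; in this case `V ⇢ W` is the projection which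
forgets one of the coordinates `x i`, and this coordinate occurs in only one of the equations, with
the degree `r`. -/
theorem result {n μ : ℕ} (hn : 1 ≤ n) {κ ι : Type} [Fintype κ] [Fintype ι] [DecidableEq ι]
    (hcard : Fintype.card ι = n + Fintype.card κ) {d : κ → ι → ℕ} {m : ι → ℕ}
    (hm : ∀ i, ∑ k, d k i = m i + 2) (hμ : ∀ i, μ ≤ m i) {F : κ → MvPolynomial ι ℂ}
    (hF : ∀ k i, (F k).degreeOf i ≤ d k i) (hs : IsSmooth d F)
    {K : Type} [Field K] [Algebra ℂ K] {x : ι → K} (hx : IsGenericPoint n F x)
    (L : Type) [Field L] [Algebra ℂ L] [Algebra L K] [IsScalarTower ℂ L K]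
    [FiniteDimensional L K] :
    (Module.finrank L K ≤ μ + 1 → ¬ GenusZero L n) ∧
    (Module.finrank L K ≤ 2 * μ + 1 →
      [GenusZero L n, ¬ KodGe ℂ L n (fun _ => False) 0, ¬ Psef ℂ L n (fun _ => False),
        IsUniruled ℂ L n].TFAE ∧
      (GenusZero L n → ∃ i k, IsProjection L x i ∧ (∀ j, j ≠ k → d j i = 0) ∧
        (F k).degreeOf i = d k i ∧ Module.finrank L K = d k i)) := by
  classical
  have hessK : Algebra.EssFiniteType ℂ K := by
    rw [← IntermediateField.fg_top_iff]
    exact ⟨Finset.univ.image x, by
      rw [Finset.coe_image, Finset.coe_univ, Set.image_univ, hx.gen]⟩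
  have hessL : Algebra.EssFiniteType ℂ L := Pool.Agent.TH466.QG.ess_below (K := K)
  have hL : Algebra.trdeg ℂ L = n := Pool.Agent.Y184.NT.trdeg_below (K := K) hx.dim
  obtain ⟨z, E, hz, hE⟩ := Pool.Agent.Y172.exists_crd (k := ℂ) (K := L) hL
  choose E' hE' using fun i => Pool.Agent.Y172.exists_lift (k := ℂ) (K := L) (L := K) hL (E i)
  have hEind : LinearIndependent K E' := Pool.Agent.Y184.NT.lift_ind hE hE'
  obtain ⟨e, C, hC, hdet⟩ := Pool.Agent.R882.CI.exists_form hs hcard hx.zero hx.gen
  have hωE := hdet E' hEind
  have hreg : ∀ a : ι → ℕ, (∀ i, a i ≤ m i) → ∀ P : Place ℂ K, Divisorial n P →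
      RegAt P (fun D => (∏ i, x i ^ a i) *
        (Pool.Agent.R882.CI.cmat e C fun j i => D j (x i)).det) := fun a ha P _ =>
    Pool.Agent.R882.CI.ci_reg hF hs e hx.zero hC (fun i => by
      rw [hm i]
      exact Nat.add_le_add_right (ha i) 2) P
  have hline : GenusZero L n → Module.finrank L K ≤ 2 * μ + 1 →
      ∃ i0, (∀ j, j ≠ i0 → x j ∈ Set.range (algebraMap L K)) ∧
        m i0 + 2 ≤ Module.finrank L K := fun hg hr =>
    Pool.Agent.R882.CI.line_dir hL hg hx.gen (Pool.Agent.R882.CI.cmat_pluri e C x) hμ hreg hE'
      hωE hr
  have main : Module.finrank L K ≤ 2 * μ + 1 → GenusZero L n → ∃ i k, IsProjection L x i ∧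
      (∀ j, j ≠ k → d j i = 0) ∧ (F k).degreeOf i = d k i ∧ Module.finrank L K = d k i := by
    intro hr hg
    obtain ⟨i0, hi0, hmr⟩ := hline hg hr
    obtain ⟨B, hB⟩ : ∃ B : IntermediateField ℂ K, B = IntermediateField.adjoin ℂ (x '' {i0}ᶜ) :=
      ⟨_, rfl⟩
    have hxB : ∀ j, j ≠ i0 → x j ∈ B := fun j hj => by
      rw [hB]
      exact IntermediateField.subset_adjoin ℂ _ ⟨j, hj, rfl⟩
    have halg : IsAlgebraic B (x i0) := by
      by_contra htr
      have hR : Ruled ℂ K := ⟨B, x i0, htr, Pool.Agent.R882.CI.adjoin_top hx.gen hxB⟩
      have h1 : IsUniruled ℂ K n :=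
        Pool.Agent.TH466.QG.uniruled_below (F := K) (K := K) hx.dim hR
      apply (Pool.Agent.W619.Y.uniruled_neg n hx.dim h1).1
      rw [← Pool.Agent.TH466.QG.psef_iff n]
      have hreg0 : ∀ P : Place ℂ K, Divisorial n P → RegAt P (fun D =>
          (Pool.Agent.R882.CI.cmat e C fun j i => D j (x i)).det) := by
        intro P hP
        have h2 := hreg (fun _ => 0) (fun _ => Nat.zero_le _) P hP
        simpa using h2
      have hk : KodGe ℂ K n (fun _ => False) 0 :=
        ⟨1, one_pos, fun _ => fun D =>
          (Pool.Agent.R882.CI.cmat e C fun j i => D j (x i)).det, fun _ =>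
          ⟨Pool.Agent.R882.CI.cmat_pluri e C x, fun P hP D' hD' => hreg0 P hP D' fun i =>
          Pool.Agent.TH466.QG.derReg_of_log (hD' i), fun P hP _ => hreg0 P hP⟩, E', hωE,
          algebraicIndependent_empty_type⟩
      exact psef_of_kodGe hk
    have hfin : FiniteDimensional B K := Pool.Agent.R882.CI.fin_of_alg hx.gen hxB halg
    obtain ⟨k0, hk0⟩ := Pool.Agent.R882.CI.deg_le hx.zero hC hx.gen hωE (hB ▸ halg)
    rw [← hB] at hk0
    have hBR : B ≤ (IsScalarTower.toAlgHom ℂ L K).fieldRange := by
      rw [hB, IntermediateField.adjoin_le_iff]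
      rintro _ ⟨j, hj, rfl⟩
      exact hi0 j hj
    have h1 : Module.finrank L K ≤ Module.finrank B K := by
      rw [← finrank_range]
      exact IntermediateField.finrank_le_of_le_left hBR
    have h2 := hF k0 i0
    have h3 : d k0 i0 ≤ ∑ k, d k i0 := Finset.single_le_sum (f := fun k => d k i0)
      (fun _ _ => Nat.zero_le _) (Finset.mem_univ k0)
    have h4 := hm i0
    refine ⟨i0, k0, ?_, fun j hj => ?_, by omega, by omega⟩
    · have heq : B = (IsScalarTower.toAlgHom ℂ L K).fieldRange := by
        apply IntermediateField.eq_of_le_of_finrank_eq' hBR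
        rw [finrank_range]
        omega
      intro z
      rw [← hB, heq]
      rfl
    · have h5 : d k0 i0 + d j i0 ≤ ∑ k, d k i0 := by
        rw [← Finset.add_sum_erase Finset.univ (fun k => d k i0) (Finset.mem_univ k0)]
        exact Nat.add_le_add_left (Finset.single_le_sum (f := fun k => d k i0)
          (fun _ _ => Nat.zero_le _) (Finset.mem_erase.2 ⟨hj, Finset.mem_univ j⟩)) _
      omega
  refine ⟨fun hr hg => ?_, fun hr => ⟨?_, main hr⟩⟩
  · obtain ⟨i0, -, h1⟩ := hline hg (by omega)
    have h2 := hμ i0
    omega
  · tfae_have 1 → 4 := by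
      intro hg
      obtain ⟨i0, k0, hproj, hd, hdeg, -⟩ := main hr hg
      have h1 : 1 ≤ d k0 i0 := by
        have h3 : ∑ k, d k i0 = d k0 i0 := Finset.sum_eq_single k0 (fun j _ hj => hd j hj)
          fun h => absurd (Finset.mem_univ _) h
        have h4 := hm i0
        omega
      have hex : ∀ k : {k // k ≠ k0}, ∃ H : MvPolynomial {i // i ≠ i0} ℂ,
          rename Subtype.val H = F k := by
        intro k
        apply Pool.Agent.R882.CI.exists_drop
        have h2 := hF k i0
        rw [hd k k.2] at h2
        omega
      choose G hG using hex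
      have hy : ∀ i : {i // i ≠ i0}, ∃ y : L, algebraMap L K y = x i := fun i =>
        (hproj _).2 (IntermediateField.subset_adjoin ℂ _ ⟨i, i.2, rfl⟩)
      choose y hy using hy
      refine Pool.Agent.R882.CI.uniruled_ci hn hL hg _ {k // k ≠ k0} {i // i ≠ i0} rfl
        (fun k i => d k i) G (fun k i => ?_) (Pool.Agent.R882.CI.smooth_drop hF hs hd h1 hG) ?_ y
        (fun k => ?_) ?_
      · have h2 := hF k i
        rw [← hG, degreeOf_rename_of_injective Subtype.val_injective] at h2
        exact h2
      · have h2 : Fintype.card {k // k ≠ k0} = Fintype.card κ - 1 := by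
          rw [Fintype.card_subtype_compl, Fintype.card_subtype_eq]
        have h3 : Fintype.card {i // i ≠ i0} = Fintype.card ι - 1 := by
          rw [Fintype.card_subtype_compl, Fintype.card_subtype_eq]
        have h4 : 0 < Fintype.card κ := Fintype.card_pos_iff.2 ⟨k0⟩
        omega
      · apply (algebraMap L K).injective
        have h2 := hx.zero k
        rw [← hG, aeval_rename] at h2
        rw [map_zero, ← h2]
        have h3 := MvPolynomial.aeval_algebraMap_apply (R := ℂ) (A := L) K y (G k)
        rw [← h3]
        congr 1
        congr 1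
        funext i
        exact hy i
      · apply IntermediateField.map_injective (IsScalarTower.toAlgHom ℂ L K)
        rw [IntermediateField.adjoin_map, ← AlgHom.fieldRange_eq_map]
        have h2 : (IsScalarTower.toAlgHom ℂ L K) '' Set.range y = x '' {i0}ᶜ := by
          ext z
          constructor
          · rintro ⟨_, ⟨j, rfl⟩, rfl⟩
            exact ⟨_, j.2, (hy j).symm⟩
          · rintro ⟨j, hj, rfl⟩
            exact ⟨y ⟨j, hj⟩, ⟨_, rfl⟩, hy ⟨j, hj⟩⟩
        rw [h2]
        ext z
        rw [← hproj z]
        rfl
    tfae_have 4 → 3 := fun h h' =>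
      (Pool.Agent.W619.Y.uniruled_neg n hL h).1 ((Pool.Agent.TH466.QG.psef_iff n).1 h')
    tfae_have 3 → 2 := fun h h' => h (psef_of_kodGe h')
    tfae_have 2 → 1 := by
      intro h ω hω hreg D
      by_contra hne
      refine h ⟨1, one_pos, fun _ => ω, fun _ => ⟨hω, fun P hP D' hD' => ?_,
        fun P hP _ => hreg P hP⟩, D, hne, ?_⟩
      · exact hreg P hP D' fun i => Pool.Agent.TH466.QG.derReg_of_log (hD' i)
      · exact algebraicIndependent_empty_type
    tfae_finish

end Pool.Agent.Results.MP_e06174_ag.CompleteIntersectionsLines
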