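import Pool.Agent.R882.CovMain
import Pool.Agent.R882.CovGT
import Pool.Agent.Y184.NT.Top

/-!
# Negative Kodaira dimension and uniruledness of the images of varieties which are generically
finite over a uniruled variety

Let `V` be any smooth projective variety of dimension `n ≥ 1`, `V ⇢ Y` a generically finite rational
map to a uniruled projective variety `Y` (for instance to projective `n`-space), and `H` the
pull-back of the hyperplane class of `Y`. Let `W` be any smooth projective variety with a dominant
rational map `V ⇢ W` of degree at most `r`; nothing is assumed about the map (it need not be a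
quotient by a group, and its ramification is arbitrary) or about `W`.

If `V ⇢ Y` does not factor through other varieties (for instance, if its degree is a prime number, or
if its monodromy group is primitive), and `H⁰(V, K_V - m H) ≠ 0`, `m ≥ r - 1`, then these are
equivalent: `p_g(W) = 0`; `κ(W) = -∞`; `K_W` is not pseudo-effective; `W` is uniruled; `V ⇢ W` factors
through `V ⇢ Y`. If `m ≥ 2 r - 1` they are also equivalent to: `W` is not of general type.

In general there may be intermediate varieties `V ⇢ Z ⇢ Y`, which correspond to the fields `F`
between the function fields `K` of `V` and `E` of `Y`. Then the theorem holds if for all `Z ≠ Y`, that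
is, `F ≠ E`, there is a section of `K_V - m H` whose trace to `Z` is not zero (`Detects`), for some
`m` with `r ≤ [K : F] (m + 1)`. If `F = K`, then this means that `H⁰(V, K_V - m H) ≠ 0`.

Proof: let `F` be the field generated by `E` and the function field `L` of `W`. If `F = E` then
`L ⊆ E`. Otherwise let `ω` be a form as above. If `p_g(W) = 0`, then the traces of the forms
`A(x) ω` from `V` to `W` vanish, for all forms `A` of degree `m`; hence the conjugates over `L` of the
generic point `x` of `Y` do not impose independent conditions on the forms of degree `m`. But there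
are at most `m + 1` conjugates.

The function-field language of the starting repository is used. A canonical form (`IsPluri 1`) on a
variety of dimension `n` is a function of `n` rational vector fields; it is regular at the prime
divisor `P` (`Place`, `Divisorial`, `RegAt`) if its value on vector fields which are regular at `P`
is regular at `P`. `KodGe ℂ L n (fun _ => False) 0` says that `κ(W) ≥ 0`,
`Psef ℂ L n (fun _ => False)` that `K_W` is pseudo-effective, `GeneralType ℂ L n` that `W` is of
general type (`Pool/Agent/W602/GT`), `IsUniruled ℂ L n` that `W` is uniruled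
(`Pool/Agent/W619/PQ/Defs.lean`).
-/

set_option autoImplicit false
set_option linter.overlappingInstances false

open FF Pool.Agent.W602.GT
open Pool.Agent.W619.PQ (IsUniruled)

namespace Pool.Agent.Results.MP_e06174_ag.ImagesOverUniruled

section

variable {K : Type} [Field K] [Algebra ℂ K] {n N : ℕ}

/-- `x` is the generic point of `Y`, embedded in projective space with `N` homogeneous coordinates
(one of them is normalised to `1`); the function field `ℂ(x)` of `Y` is a subfield of the function
field `K` of `V`, of finite index, and `n` is the dimension of `V` and `Y`. -/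
structure IsBase (n : ℕ) (x : Fin N → K) : Prop where
  ess : Algebra.EssFiniteType ℂ K
  dim : Algebra.trdeg ℂ K = n
  one : ∃ j, x j = 1
  fin : FiniteDimensional (IntermediateField.adjoin ℂ (Set.range x)) K

/-- There is a section `ω` of `K_V - m H` (a canonical form on `V` such that `A(x) ω` is regular at all
prime divisors, for all monomials, hence for all forms `A` of degree `m`) whose trace to the variety
with the function field `F` is not zero. The value of the trace of `ω` on vector fields `D i` of `F`
is the trace of the value of `ω` on the extensions `D' i` of the `D i` to `K`. -/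
def Detects (n : ℕ) (x : Fin N → K) (F : IntermediateField ℂ K) (m : ℕ) : Prop :=
  ∃ ω : (Fin n → Derivation ℂ K K) → K, IsPluri 1 ω ∧
    (∀ (f : Fin m → Fin N) (P : Place ℂ K), Divisorial n P →
      RegAt P (fun D => (∏ k, x (f k)) * ω D)) ∧
    ∃ (D : Fin n → Derivation ℂ F F) (D' : Fin n → Derivation ℂ K K),
      (∀ i f, D' i (algebraMap F K f) = algebraMap F K (D i f)) ∧
      Algebra.trace F K (ω D') ≠ 0

/-- For all fields `F` with `ℂ(x) < F ≤ K` there is a section of `K_V - m H` with nonzero trace to
`F`, for some `m` with `s ≤ [K : F] (m + 1)`. -/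
def Positive (n : ℕ) (x : Fin N → K) (s : ℕ) : Prop :=
  ∀ F : IntermediateField ℂ K, IntermediateField.adjoin ℂ (Set.range x) < F →
    ∃ m : ℕ, s ≤ Module.finrank F K * (m + 1) ∧ Detects n x F m

/-- The map `V ⇢ W` factors through `V ⇢ Y`: all elements of the function field `L` of `W` are
rational functions of `x`. -/
def FactorsThrough (L : Type) [Field L] [Algebra L K] (x : Fin N → K) : Prop :=
  ∀ f : L, algebraMap L K f ∈ IntermediateField.adjoin ℂ (Set.range x)

end

/-- The geometric genus is zero: the only canonical form which is regular at all prime divisors is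
`0`. -/
def GenusZero (L : Type) [Field L] [Algebra ℂ L] (n : ℕ) : Prop :=
  ∀ ω : (Fin n → Derivation ℂ L L) → L, IsPluri 1 ω →
    (∀ P : Place ℂ L, Divisorial n P → RegAt P ω) → ∀ D, ω D = 0

/-- **Images of varieties over a uniruled variety.** Let `V ⇢ Y` be a generically finite rational map
of varieties of dimension `n ≥ 1`, `Y` uniruled with generic point `x`, and let `V ⇢ W` be a dominant
rational map of degree `r` to a smooth projective variety with function field `L`. If `Positive` holds
for `r` (for instance, if there is no variety between `V` and `Y` and `K_V - (r - 1) H` is effective)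
then `p_g(W) = 0` if and only if `κ(W) = -∞`, if and only if `K_W` is not pseudo-effective, if and only
if `W` is uniruled, if and only if `V ⇢ W` factors through `V ⇢ Y`. If `Positive` holds for `2 r`
then `W` is not of general type if and only if `V ⇢ W` factors through `V ⇢ Y`. -/
theorem result {n N : ℕ} (hn : 1 ≤ n) {K : Type} [Field K] [Algebra ℂ K] {x : Fin N → K}
    (hx : IsBase n x) (hY : IsUniruled ℂ (IntermediateField.adjoin ℂ (Set.range x)) n)
    (L : Type) [Field L] [Algebra ℂ L] [Algebra L K] [IsScalarTower ℂ L K]
    [FiniteDimensional L K] :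
    (Positive n x (Module.finrank L K) →
      [GenusZero L n, ¬ KodGe ℂ L n (fun _ => False) 0, ¬ Psef ℂ L n (fun _ => False),
        IsUniruled ℂ L n, FactorsThrough L x].TFAE) ∧
    (Positive n x (2 * Module.finrank L K) → (¬ GeneralType ℂ L n ↔ FactorsThrough L x)) := by
  classical
  have hessK : Algebra.EssFiniteType ℂ K := hx.ess
  have hessL : Algebra.EssFiniteType ℂ L := Pool.Agent.TH466.QG.ess_below (K := K)
  have hL : Algebra.trdeg ℂ L = n := Pool.Agent.Y184.NT.trdeg_below (K := K) hx.dim
  have hfin := hx.fin
  obtain ⟨j0, hj0⟩ := hx.one
  have halg : ∀ τ : K, IsAlgebraic (IntermediateField.adjoin ℂ (Set.range x)) τ := fun τ =>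
    (Algebra.IsIntegral.isIntegral τ).isAlgebraic
  obtain ⟨z, E, hz, hE⟩ := Pool.Agent.Y172.exists_crd (k := ℂ) (K := L) hL
  choose E' hE' using fun i => Pool.Agent.Y172.exists_lift (k := ℂ) (K := L) (L := K) hL (E i)
  have hzK : IsTranscendenceBasis ℂ (fun j => algebraMap L K (z j)) := hz.algebraMap_comp
  have hE'd := Pool.Agent.Y172.lift_dual hE hE'
  have huni : FactorsThrough L x → IsUniruled ℂ L n := by
    intro hf
    obtain ⟨M, i1, i2, hM, htr, ⟨ψ⟩⟩ := hY
    let φ : L →ₐ[ℂ] IntermediateField.adjoin ℂ (Set.range x) :=
      { toFun := fun f => ⟨algebraMap L K f, hf f⟩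
        map_one' := Subtype.ext (map_one _)
        map_mul' := fun f g => Subtype.ext (map_mul _ _ _)
        map_zero' := Subtype.ext (map_zero _)
        map_add' := fun f g => Subtype.ext (map_add _ _ _)
        commutes' := fun c => Subtype.ext (IsScalarTower.algebraMap_apply ℂ L K c).symm }
    exact ⟨M, i1, i2, hM, htr, ⟨ψ.comp φ⟩⟩
  -- the form with a trace which is not zero
  have hmul : Module.finrank L (IntermediateField.adjoin L (Set.range x)) *
      Module.finrank (IntermediateField.adjoin L (Set.range x)) K = Module.finrank L K :=
    Module.finrank_mul_finrank L _ K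
  have hstep : ∀ s : ℕ, Positive n x (s * Module.finrank L K) → ¬ FactorsThrough L x →
      ∃ (m : ℕ) (ω : (Fin n → Derivation ℂ K K) → K), IsPluri 1 ω ∧
        (∀ (f : Fin m → Fin N) (P : Place ℂ K), Divisorial n P →
          RegAt P (fun D => (∏ k, x (f k)) * ω D)) ∧
        s * Module.finrank L (IntermediateField.adjoin L (Set.range x)) ≤ m + 1 ∧
        Algebra.trace (IntermediateField.adjoin L (Set.range x)) K (ω E') ≠ 0 := by
    intro s hs hnf
    obtain ⟨F, hF⟩ : ∃ F : IntermediateField ℂ K,
      F = (IntermediateField.adjoin L (Set.range x)).restrictScalars ℂ := ⟨_, rfl⟩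
    have hle : IntermediateField.adjoin ℂ (Set.range x) ≤ F := by
      rw [hF, IntermediateField.adjoin_le_iff]
      exact IntermediateField.subset_adjoin L _
    have hLF : ∀ f : L, algebraMap L K f ∈ F := by
      intro f
      rw [hF]
      exact (IntermediateField.adjoin L (Set.range x)).algebraMap_mem f
    have hne : IntermediateField.adjoin ℂ (Set.range x) ≠ F := by
      intro h
      apply hnf
      intro f
      rw [h]
      exact hLF f
    obtain ⟨m, hm, ω, hω, hreg, D, D', hD, htr⟩ := hs F (lt_of_le_of_ne hle hne)
    have hfr : Module.finrank F K =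
        Module.finrank (IntermediateField.adjoin L (Set.range x)) K := by
      rw [hF]
      rfl
    refine ⟨m, ω, hω, hreg, ?_, ?_⟩
    · rw [hfr, ← hmul] at hm
      have h1 : 0 < Module.finrank (IntermediateField.adjoin L (Set.range x)) K :=
        Module.finrank_pos
      have h2 : Module.finrank (IntermediateField.adjoin L (Set.range x)) K *
          (s * Module.finrank L (IntermediateField.adjoin L (Set.range x))) ≤
          Module.finrank (IntermediateField.adjoin L (Set.range x)) K * (m + 1) := by
        calc _ = s * (Module.finrank L (IntermediateField.adjoin L (Set.range x)) *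
            Module.finrank (IntermediateField.adjoin L (Set.range x)) K) := by ring
          _ ≤ _ := hm
      exact Nat.le_of_mul_le_mul_left h2 h1
    · intro h0
      apply htr
      have h1 : Algebra.trace F K (ω E') = 0 := by
        subst hF
        have h2 : ((Algebra.trace (IntermediateField.adjoin L (Set.range x)) K (ω E') :
            IntermediateField.adjoin L (Set.range x)) : K) = 0 := by
          rw [h0]
          rfl
        apply Subtype.ext
        exact h2
      obtain ⟨δ, hδ⟩ : ∃ δ : F, δ = (Matrix.of fun i j => D i ⟨algebraMap L K (z j), hLF _⟩ :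
        Matrix (Fin n) (Fin n) F).det := ⟨_, rfl⟩
      have h2 : ω D' = δ • ω E' := by
        rw [Pool.Agent.Y172.pluri_coord hzK hE'd hω D', pow_one, Algebra.smul_def, hδ,
          RingHom.map_det]
        congr 1
        congr 1
        ext i j
        rw [RingHom.mapMatrix_apply, Matrix.map_apply, Matrix.of_apply, Matrix.of_apply]
        exact hD i ⟨algebraMap L K (z j), hLF _⟩
      rw [h2, map_smul, h1, smul_zero]
  refine ⟨fun hp => ?_, fun hp => ?_⟩
  · tfae_have 1 → 5 := by
      intro hg
      by_contra hnf
      obtain ⟨m, ω, hω, hreg, hdeg, hne⟩ := hstep 1 (by rwa [one_mul]) hnf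
      rw [one_mul] at hdeg
      exact hne (Pool.Agent.R882.WR.trace_zero hL hg hj0 hω hreg hE' hdeg)
    tfae_have 5 → 4 := huni
    tfae_have 4 → 3 := fun h h' =>
      (Pool.Agent.W619.Y.uniruled_neg n hL h).1 ((Pool.Agent.TH466.QG.psef_iff n).1 h')
    tfae_have 3 → 2 := fun h h' => h (psef_of_kodGe h')
    tfae_have 2 → 1 := by
      intro h ω hω hreg D
      by_contra hne
      refine h ⟨1, one_pos, fun _ => ω, fun _ => ⟨hω, fun P hP D' hD' => ?_,
        fun P hP _ => hreg P hP⟩, D, hne, ?_⟩
      · exact hreg P hP D' fun i => Pool.Agent.TH466.QG.derReg_of_log (hD' i)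
      · exact algebraicIndependent_empty_type
    tfae_finish
  · constructor
    · intro hgt
      by_contra hnf
      obtain ⟨m, ω, hω, hreg, hdeg, hne⟩ := hstep 2 hp hnf
      exact hgt (Pool.Agent.R882.WR.gt_of hn hL hj0 hω hreg halg hz hE hE' hdeg hne)
    · intro hf hgt
      exact (Pool.Agent.W619.Y.uniruled_neg n hL (huni hf)).1
        ((Pool.Agent.TH466.QG.psef_iff n).1
          (psef_of_kodGe (Pool.Agent.R882.WR.kod_of_gt hgt)))

end Pool.Agent.Results.MP_e06174_ag.ImagesOverUniruled
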